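import Pool.Agent.H33.HC.TA
import Pool.Agent.H35.HH.JID

/-!
# Row JDC: the identity which kills the main terms, with shifts
-/

set_option autoImplicit false

open Complex Filter Topology MeasureTheory

namespace Pool.Agent.H46.HC

open Pool.Agent.H33.HC Pool.Agent.H33.HH
open Pool.Agent.H35.HH (et et_add et_nonneg et_le et_meas)

noncomputable section

/-- `t^(-s) G_s(t)` -/
def gg (G : ℝ → ℝ) (s : ℂ) (t : ℝ) : ℂ := (t : ℂ) ^ (-s) * Gs G s t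

theorem Hs_eq (H : ℝ → ℝ) (s : ℂ) {v : ℝ} (hv : 0 < v) :
    Hs H s v = ((et H v : ℝ) : ℂ) * (v : ℂ) ^ (-s) := by
  have hv0 : (v : ℂ) ≠ 0 := by exact_mod_cast hv.ne'
  unfold Hs et
  rw [sub_eq_add_neg, Complex.cpow_add _ _ hv0, Complex.ofReal_mul, Complex.ofReal_cpow hv.le]
  push_cast
  ring

theorem cpow_div {r c : ℝ} (hr : 0 < r) (hc : 0 < c) (s : ℂ) :
    ((r / c : ℝ) : ℂ) ^ (-s) = (r : ℂ) ^ (-s) * (c : ℂ) ^ s := by
  have hc0 : (c : ℂ) ≠ 0 := by exact_mod_cast hc.ne'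
  have h1 := Complex.mul_cpow_ofReal_nonneg (div_pos hr hc).le hc.le (-s)
  have h2 : ((r / c : ℝ) : ℂ) * (c : ℂ) = (r : ℂ) := by
    rw [← Complex.ofReal_mul, div_mul_cancel₀ _ hc.ne']
  rw [h2] at h1
  rw [h1, mul_assoc, ← Complex.cpow_add _ _ hc0, neg_add_cancel, Complex.cpow_zero, mul_one]

theorem cpow_prod {b t : ℝ} (hb : 0 < b) (ht : 0 < t) (s : ℂ) :
    ((b * t : ℝ) : ℂ) ^ s = (b : ℂ) ^ s * (t : ℂ) ^ s := by
  rw [Complex.ofReal_mul, Complex.mul_cpow_ofReal_nonneg hb.le ht.le]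

theorem inner {G H : ℝ → ℝ} {a b t : ℝ} {s1 s2 w : ℂ} (ha : 0 < a) (hb : 0 < b)
    (ht : 0 < t) (hw : -w + (s1 - 1) = -s2) :
    (t : ℂ) ^ (-w) * (Gs G s2 t * Jc G H s1 (b / a * t)) =
      (Real.pi : ℂ) * ((b / a : ℝ) : ℂ) ^ (s1 - 1) *
        ∫ r in Set.Ioi (0 : ℝ), gg G s2 t * gg G s1 r * ((et H (r * a / (t * b)) : ℝ) : ℂ) := by
  set c : ℝ := b / a * t with hc
  have hba : 0 < b / a := by positivity
  have hc0 : 0 < c := by positivity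
  have hcc : (c : ℂ) ≠ 0 := by exact_mod_cast hc0.ne'
  have htt : (t : ℂ) ≠ 0 := by exact_mod_cast ht.ne'
  have h1 : ∫ v in Set.Ioi (0 : ℝ), Hs H s1 v * Gs G s1 (v * c) =
      ((c⁻¹ : ℝ) : ℂ) * ∫ r in Set.Ioi (0 : ℝ), Hs H s1 (r / c) * Gs G s1 r := by
    have h2 := integral_comp_mul_right_Ioi (fun r => Hs H s1 (r / c) * Gs G s1 r) 0 hc0
    rw [zero_mul, Complex.real_smul] at h2
    rw [← h2]
    refine integral_congr_ae (Eventually.of_forall fun u => ?_)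
    show Hs H s1 u * Gs G s1 (u * c) = Hs H s1 (u * c / c) * Gs G s1 (u * c)
    rw [mul_div_assoc, div_self hc0.ne', mul_one]
  unfold Jc
  rw [h1]
  have h3 : (t : ℂ) ^ (-w) * (Gs G s2 t * ((Real.pi : ℂ) * (((c⁻¹ : ℝ) : ℂ) *
      ∫ r in Set.Ioi (0 : ℝ), Hs H s1 (r / c) * Gs G s1 r))) =
      (Real.pi : ℂ) * ((t : ℂ) ^ (-w) * Gs G s2 t * ((c⁻¹ : ℝ) : ℂ) *
        ∫ r in Set.Ioi (0 : ℝ), Hs H s1 (r / c) * Gs G s1 r) := by ring
  rw [h3, mul_assoc (Real.pi : ℂ)]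
  congr 1
  rw [← integral_const_mul, ← integral_const_mul]
  refine setIntegral_congr_fun measurableSet_Ioi fun r hr => ?_
  have hr0 : (0 : ℝ) < r := hr
  have e1 : r / c = r * a / (t * b) := by
    rw [hc]
    field_simp
  show (t : ℂ) ^ (-w) * Gs G s2 t * ((c⁻¹ : ℝ) : ℂ) * (Hs H s1 (r / c) * Gs G s1 r) =
    ((b / a : ℝ) : ℂ) ^ (s1 - 1) * (gg G s2 t * gg G s1 r * ((et H (r * a / (t * b)) : ℝ) : ℂ))
  rw [Hs_eq H s1 (div_pos hr0 hc0), cpow_div hr0 hc0, ← e1]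
  have e2 : (c : ℂ) ^ s1 * ((c⁻¹ : ℝ) : ℂ) = ((b / a : ℝ) : ℂ) ^ (s1 - 1) * (t : ℂ) ^ (s1 - 1) := by
    rw [← cpow_prod hba ht, ← hc, Complex.cpow_sub _ _ hcc, Complex.cpow_one, Complex.ofReal_inv,
      div_eq_mul_inv]
  have e3 : (t : ℂ) ^ (-w) * (t : ℂ) ^ (s1 - 1) = (t : ℂ) ^ (-s2) := by
    rw [← Complex.cpow_add _ _ htt, hw]
  unfold gg
  rw [← e3]
  linear_combination ((t : ℂ) ^ (-w) * Gs G s2 t * ((et H (r / c) : ℝ) : ℂ) * (r : ℂ) ^ (-s1) *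
    Gs G s1 r) * e2

/-- the integrand on the quadrant -/
def FF (G H : ℝ → ℝ) (s s' : ℂ) (a b : ℝ) (z : ℝ × ℝ) : ℂ :=
  gg G s z.1 * gg G s' z.2 * ((et H (z.2 * a / (z.1 * b)) : ℝ) : ℂ)

theorem gg_int (h1 : T_GSC) {G : ℝ → ℝ} (hG : IsG G) {s : ℂ} (hs : Nr s) :
    Integrable (gg G s) (volume.restrict (Set.Ioi (0 : ℝ))) ∧
      ∫ t in Set.Ioi (0 : ℝ), gg G s t = 0 := by
  obtain ⟨-, -, -, h2⟩ := (h1 G hG).1 s hs
  have h3 := h2 1 one_pos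
  simp only [mul_one] at h3
  exact h3

theorem FF_int (h1 : T_GSC) {G H : ℝ → ℝ} (hG : IsG G) (hH : IsH H) {s s' : ℂ} (hs : Nr s)
    (hs' : Nr s') (a b : ℝ) : Integrable (FF G H s s' a b)
      ((volume.restrict (Set.Ioi (0 : ℝ))).prod (volume.restrict (Set.Ioi (0 : ℝ)))) := by
  have h2 := (gg_int h1 hG hs).1.mul_prod (gg_int h1 hG hs').1
  have hm : Measurable fun z : ℝ × ℝ => ((et H (z.2 * a / (z.1 * b)) : ℝ) : ℂ) :=
    Complex.measurable_ofReal.comp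
      ((et_meas hH).comp ((measurable_snd.mul_const a).div (measurable_fst.mul_const b)))
  refine h2.mul_bdd (c := 1) hm.aestronglyMeasurable (Eventually.of_forall fun z => ?_)
  rw [Complex.norm_real, Real.norm_eq_abs, abs_of_nonneg (et_nonneg hH _)]
  exact et_le hH _

theorem term (h1 : T_GSC) {G H : ℝ → ℝ} (hG : IsG G) (hH : IsH H) {a b : ℝ} (ha : 0 < a)
    (hb : 0 < b) {s1 s2 w : ℂ} (hs1 : Nr s1) (hs2 : Nr s2) (hw : -w + (s1 - 1) = -s2) :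
    ∫ t in Set.Ioi (0 : ℝ), (t : ℂ) ^ (-w) * (Gs G s2 t * Jc G H s1 (b / a * t)) =
      (Real.pi : ℂ) * ((b / a : ℝ) : ℂ) ^ (s1 - 1) * ∫ z, FF G H s2 s1 a b z
        ∂((volume.restrict (Set.Ioi (0 : ℝ))).prod (volume.restrict (Set.Ioi (0 : ℝ)))) := by
  rw [integral_prod _ (FF_int h1 hG hH hs2 hs1 a b), ← integral_const_mul]
  refine setIntegral_congr_fun measurableSet_Ioi fun t ht => ?_
  exact inner ha hb ht hw

theorem const {a b : ℝ} (ha : 0 < a) (hb : 0 < b) (α s : ℂ) :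
    (a : ℂ) ^ (α - 1) * (b : ℂ) ^ (-α) * ((b / a : ℝ) : ℂ) ^ (s - 1) =
      (a : ℂ) ^ (α - s) * (b : ℂ) ^ (s - 1 - α) := by
  have ha0 : (a : ℂ) ≠ 0 := by exact_mod_cast ha.ne'
  have hb0 : (b : ℂ) ≠ 0 := by exact_mod_cast hb.ne'
  have h1 : ((b / a : ℝ) : ℂ) ^ (s - 1) = (b : ℂ) ^ (s - 1) * (a : ℂ) ^ (1 - s) := by
    have h2 := cpow_div hb ha (1 - s)
    rwa [neg_sub] at h2
  rw [h1, show α - s = (α - 1) + (1 - s) by ring, show s - 1 - α = -α + (s - 1) by ring,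
    Complex.cpow_add _ _ ha0, Complex.cpow_add _ _ hb0]
  ring

theorem pf_JDC (h1 : T_GSC) (h2 : T_HSC) : T_JDC := by
  intro G H hG hH a b α β u ha hb hs1 hs2
  set s1 : ℂ := se α u with hs1d
  set s2 : ℂ := se β (-u) with hs2d
  have e1 : s1 = 1 / 2 + α + u * I := rfl
  have e2 : s2 = 1 / 2 + β + ((-u : ℝ) : ℂ) * I := rfl
  have w1 : -(α + β) + (s1 - 1) = -s2 := by
    rw [e1, e2]; push_cast; ring
  have w2 : -(α + β) + (s2 - 1) = -s1 := by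
    rw [e1, e2]; push_cast; ring
  set μ : Measure ℝ := volume.restrict (Set.Ioi (0 : ℝ)) with hμ
  rw [term h1 hG hH ha hb hs1 hs2 w1, term h1 hG hH hb ha hs2 hs1 w2]
  have c1 := const ha hb α s1
  have c2 := const hb ha β s2
  have f1 : α - s1 = s2 - 1 - β := by
    rw [e1, e2]; push_cast; ring
  have f2 : s1 - 1 - α = β - s2 := by
    rw [e1, e2]; push_cast; ring
  rw [f1, f2] at c1
  have h4 : ∫ z, FF G H s1 s2 b a z ∂(μ.prod μ) = ∫ z, FF G H s1 s2 b a z.swap ∂(μ.prod μ) :=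
    (integral_prod_swap (FF G H s1 s2 b a)).symm
  have hi : Integrable (fun z => FF G H s1 s2 b a z.swap) (μ.prod μ) :=
    (FF_int h1 hG hH hs1 hs2 b a).swap
  have h5 : ∫ z, FF G H s2 s1 a b z ∂(μ.prod μ) + ∫ z, FF G H s1 s2 b a z ∂(μ.prod μ) =
      ∫ z, gg G s2 z.1 * gg G s1 z.2 ∂(μ.prod μ) := by
    rw [h4, ← integral_add (FF_int h1 hG hH hs2 hs1 a b) hi]
    refine integral_congr_ae ?_
    have hae : ∀ᵐ z ∂(μ.prod μ), z ∈ Set.Ioi (0 : ℝ) ×ˢ Set.Ioi (0 : ℝ) := by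
      rw [hμ, Measure.prod_restrict]
      exact ae_restrict_mem (measurableSet_Ioi.prod measurableSet_Ioi)
    filter_upwards [hae] with z hz
    have hz1 : (0 : ℝ) < z.1 := hz.1
    have hz2 : (0 : ℝ) < z.2 := hz.2
    have hv : 0 < z.2 * a / (z.1 * b) := by positivity
    have e := et_add hH hv
    rw [inv_div] at e
    have e' : ((et H (z.2 * a / (z.1 * b)) : ℝ) : ℂ) + ((et H (z.1 * b / (z.2 * a)) : ℝ) : ℂ) =
        1 := by
      rw [← Complex.ofReal_add, e, Complex.ofReal_one]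
    show gg G s2 z.1 * gg G s1 z.2 * ((et H (z.2 * a / (z.1 * b)) : ℝ) : ℂ) +
      gg G s1 z.2 * gg G s2 z.1 * ((et H (z.1 * b / (z.2 * a)) : ℝ) : ℂ) =
      gg G s2 z.1 * gg G s1 z.2
    linear_combination (gg G s2 z.1 * gg G s1 z.2) * e'
  have h6 : ∫ z, gg G s2 z.1 * gg G s1 z.2 ∂(μ.prod μ) =
      (∫ t, gg G s2 t ∂μ) * ∫ t, gg G s1 t ∂μ :=
    integral_prod_mul (gg G s2) (gg G s1)
  have h7 : ∫ t, gg G s2 t ∂μ = 0 := (gg_int h1 hG hs2).2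
  rw [h6, h7, zero_mul] at h5
  linear_combination ((Real.pi : ℂ) * ∫ z, FF G H s2 s1 a b z ∂(μ.prod μ)) * c1 +
    ((Real.pi : ℂ) * ∫ z, FF G H s1 s2 b a z ∂(μ.prod μ)) * c2 +
    ((Real.pi : ℂ) * ((a : ℂ) ^ (s2 - 1 - β) * (b : ℂ) ^ (β - s2))) * h5

end

end Pool.Agent.H46.HC
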